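import Pool.Agent.H606.GU.Stm2

open MeasureTheory Filter Topology Finset
open Pool.Agent.H606.GU

namespace Pool.Agent.H162.GU.CONS

/-! ### The counting function of a window -/

/-- the number of the `g_i`, `i < N`, in `[u, u + s)` -/
noncomputable def AA (g : ℕ → ℝ) (N : ℕ) (s u : ℝ) : ℝ :=
  ∑ i ∈ range N, if u ≤ g i ∧ g i < u + s then (1 : ℝ) else 0

theorem ind_meas (c s : ℝ) : Measurable fun u : ℝ => if u ≤ c ∧ c < u + s then (1 : ℝ) else 0 := by
  refine Measurable.ite ?_ measurable_const measurable_const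
  exact (measurableSet_le measurable_id measurable_const).inter
    (measurableSet_lt measurable_const (measurable_id.add_const s))

theorem AA_meas (g : ℕ → ℝ) (N : ℕ) (s : ℝ) : Measurable (AA g N s) := by
  unfold AA
  exact Finset.measurable_sum _ fun i _ => ind_meas (g i) s

theorem AA_nonneg (g : ℕ → ℝ) (N : ℕ) (s u : ℝ) : 0 ≤ AA g N s u :=
  Finset.sum_nonneg fun i _ => by split_ifs <;> norm_num

theorem AA_le (g : ℕ → ℝ) (N : ℕ) (s u : ℝ) : AA g N s u ≤ N := by
  unfold AA
  calc ∑ i ∈ range N, (if u ≤ g i ∧ g i < u + s then (1 : ℝ) else 0)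
      ≤ ∑ i ∈ range N, (1 : ℝ) := Finset.sum_le_sum fun i _ => by split_ifs <;> norm_num
    _ = N := by simp

theorem ii_of_bdd {f : ℝ → ℝ} (hf : Measurable f) {B : ℝ} (hB : ∀ u, |f u| ≤ B) (p q : ℝ) :
    IntervalIntegrable f volume p q := by
  refine (intervalIntegrable_const (c := B)).mono_fun hf.aestronglyMeasurable ?_
  refine Eventually.of_forall fun u => ?_
  show ‖f u‖ ≤ ‖B‖
  rw [Real.norm_eq_abs, Real.norm_eq_abs]
  exact (hB u).trans (le_abs_self B)

theorem AL_ii (g : ℕ → ℝ) (N : ℕ) (s L p q : ℝ) :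
    IntervalIntegrable (fun u => |AA g N s u - L|) volume p q := by
  refine ii_of_bdd (B := N + |L|) ?_ (fun u => ?_) p q
  · exact ((AA_meas g N s).sub_const L).abs
  · rw [abs_abs]
    calc |AA g N s u - L| ≤ |AA g N s u| + |L| := abs_sub _ _
      _ ≤ N + |L| := by
          rw [abs_of_nonneg (AA_nonneg g N s u)]
          linarith [AA_le g N s u]

theorem ind_ii (c s p q : ℝ) :
    IntervalIntegrable (fun u : ℝ => if u ≤ c ∧ c < u + s then (1 : ℝ) else 0) volume p q := by
  refine ii_of_bdd (B := 1) (ind_meas c s) (fun u => ?_) p q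
  split_ifs <;> simp

theorem ind_int {c s p q : ℝ} (hpq : p ≤ q) (hs : 0 ≤ s) :
    ∫ u in p..q, (if u ≤ c ∧ c < u + s then (1 : ℝ) else 0) ≤ s := by
  have h1 : (fun u : ℝ => if u ≤ c ∧ c < u + s then (1 : ℝ) else 0) =
      (Set.Ioc (c - s) c).indicator fun _ => 1 := by
    funext u
    by_cases h : u ∈ Set.Ioc (c - s) c
    · rw [Set.indicator_of_mem h, if_pos ⟨h.2, by linarith [h.1]⟩]
    · rw [Set.indicator_of_notMem h, if_neg]
      rintro ⟨h2, h3⟩
      exact h ⟨by linarith, h2⟩
  rw [h1, intervalIntegral.integral_of_le hpq]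
  have h2 : Integrable ((Set.Ioc (c - s) c).indicator fun _ => (1 : ℝ)) :=
    (integrable_indicator_iff measurableSet_Ioc).2 (by
      exact integrableOn_const (by simp))
  calc ∫ u in Set.Ioc p q, (Set.Ioc (c - s) c).indicator (fun _ => (1 : ℝ)) u
      ≤ ∫ u, (Set.Ioc (c - s) c).indicator (fun _ => (1 : ℝ)) u :=
        setIntegral_le_integral h2 (Eventually.of_forall fun u =>
          Set.indicator_nonneg (fun _ _ => zero_le_one) _)
    _ = s := by
        rw [integral_indicator measurableSet_Ioc, setIntegral_const]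
        simp [Real.volume_real_Ioc, hs]

/-! ### The bound of a short piece -/

theorem cN_mono (S : Sq) : Monotone S.cN := by
  intro a b hab
  by_contra hc
  rw [not_le] at hc
  have h1 : S.g (S.cN b) ≤ a := (S.hc _ a).2 hc
  have h2 : S.cN b < S.cN b := (S.hc _ b).1 (h1.trans hab)
  exact lt_irrefl _ h2

theorem piece (S : Sq) (N : ℕ) {s L p q : ℝ} (hs : 0 ≤ s) (hL : 0 ≤ L) (hpq : p ≤ q) :
    ∫ u in p..q, |AA S.g N s u - L| ≤
      s * ((S.cN (q + s) : ℝ) - S.cN (p - 1)) + L * (q - p) := by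
  have hA : IntervalIntegrable (fun u => AA S.g N s u) volume p q := by
    refine ii_of_bdd (B := N) (AA_meas _ _ _) (fun u => ?_) p q
    rw [abs_of_nonneg (AA_nonneg _ _ _ _)]
    exact AA_le _ _ _ _
  have h1 : ∫ u in p..q, |AA S.g N s u - L| ≤ ∫ u in p..q, (AA S.g N s u + L) := by
    refine intervalIntegral.integral_mono_on hpq (AL_ii _ _ _ _ _ _)
      (hA.add intervalIntegrable_const) fun u _ => ?_
    rw [abs_le]
    constructor
    · linarith [AA_nonneg S.g N s u]
    · linarith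
  have h2 : ∫ u in p..q, (AA S.g N s u + L) = (∫ u in p..q, AA S.g N s u) + L * (q - p) := by
    rw [intervalIntegral.integral_add hA intervalIntegrable_const, intervalIntegral.integral_const,
      smul_eq_mul, mul_comm]
  have h3 : ∫ u in p..q, AA S.g N s u =
      ∑ i ∈ range N, ∫ u in p..q, (if u ≤ S.g i ∧ S.g i < u + s then (1 : ℝ) else 0) := by
    unfold AA
    exact intervalIntegral.integral_finsetSum fun i _ => ind_ii _ _ _ _
  have h4 : ∀ i, ∫ u in p..q, (if u ≤ S.g i ∧ S.g i < u + s then (1 : ℝ) else 0) ≤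
      if S.cN (p - 1) ≤ i ∧ i < S.cN (q + s) then s else 0 := by
    intro i
    split_ifs with hi
    · exact ind_int hpq hs
    · rw [not_and_or, not_le, not_lt] at hi
      apply le_of_eq
      rw [intervalIntegral.integral_of_le hpq]
      have h5 : ∫ u in Set.Ioc p q, (if u ≤ S.g i ∧ S.g i < u + s then (1 : ℝ) else 0) =
          ∫ u in Set.Ioc p q, (0 : ℝ) := by
        refine setIntegral_congr_fun measurableSet_Ioc fun u hu => ?_
        rw [if_neg]
        rintro ⟨h6, h7⟩
        rcases hi with hi | hi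
        · have := (S.hc i (p - 1)).2 hi
          linarith [hu.1]
        · have h8 : ¬ S.g i ≤ q + s := fun h => absurd ((S.hc i (q + s)).1 h) (not_lt.2 hi)
          apply h8
          linarith [hu.2]
      rw [h5, integral_zero]
  have h5 : ∑ i ∈ range N, (if S.cN (p - 1) ≤ i ∧ i < S.cN (q + s) then s else 0) ≤
      s * ((S.cN (q + s) : ℝ) - S.cN (p - 1)) := by
    rw [← Finset.sum_filter, Finset.sum_const, nsmul_eq_mul, mul_comm]
    refine mul_le_mul_of_nonneg_left ?_ hs
    have h6 : (Finset.filter (fun i => S.cN (p - 1) ≤ i ∧ i < S.cN (q + s)) (range N)) ⊆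
        Finset.Ico (S.cN (p - 1)) (S.cN (q + s)) := by
      intro i hi
      rw [Finset.mem_filter] at hi
      exact Finset.mem_Ico.2 hi.2
    have h7 := Finset.card_le_card h6
    rw [Nat.card_Ico] at h7
    have h8 : S.cN (p - 1) ≤ S.cN (q + s) := cN_mono S (by linarith)
    have h9 : ((Finset.filter (fun i => S.cN (p - 1) ≤ i ∧ i < S.cN (q + s)) (range N)).card : ℝ) ≤
        ((S.cN (q + s) - S.cN (p - 1) : ℕ) : ℝ) := by exact_mod_cast h7
    rwa [Nat.cast_sub h8] at h9
  calc ∫ u in p..q, |AA S.g N s u - L| ≤ (∫ u in p..q, AA S.g N s u) + L * (q - p) := h1.trans_eq h2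
    _ ≤ s * ((S.cN (q + s) : ℝ) - S.cN (p - 1)) + L * (q - p) := by
        rw [h3]
        have := (Finset.sum_le_sum fun i (_ : i ∈ range N) => h4 i).trans h5
        linarith

/-! ### The good piece -/

theorem AA_eq (S : Sq) {T s u : ℝ} (hu : ∀ n, S.g n ≠ u) (hu' : ∀ n, S.g n ≠ u + s)
    (huT : u + s ≤ T) :
    AA S.g (S.cN T) s u = ({n : ℕ | u < S.g n ∧ S.g n ≤ u + s}.ncard : ℝ) := by
  have h1 : {n : ℕ | u < S.g n ∧ S.g n ≤ u + s} =
      ((range (S.cN T)).filter fun i => u ≤ S.g i ∧ S.g i < u + s : Finset ℕ) := by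
    ext n
    simp only [Set.mem_ofPred_eq, Finset.coe_filter, Finset.mem_range]
    constructor
    · rintro ⟨h1, h2⟩
      exact ⟨(S.hc n T).1 (h2.trans huT), h1.le, lt_of_le_of_ne h2 (hu' n)⟩
    · rintro ⟨_, h1, h2⟩
      exact ⟨lt_of_le_of_ne h1 (hu n).symm, h2.le⟩
  rw [h1, Set.ncard_coe_finset, AA, Finset.card_filter]
  push_cast
  rfl

theorem good (S : Sq) {ε T V s L : ℝ} (hV : 1 ≤ Real.log V)
    (hV4 : V + 2 * Real.log V ≤ 2 * V - 2 * Real.log V) (hsl : s ≤ 2 * Real.log V)
    (hVT : 2 * V ≤ T)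
    (hD : ∫ t in (V + 2 * Real.log V)..(2 * V - 2 * Real.log V),
      |({n : ℕ | t < S.g n ∧ S.g n ≤ t + s}.ncard : ℝ) - s * Real.log V / (2 * Real.pi)| ≤ ε) :
    ∫ u in (V + 2 * Real.log V)..(2 * V - 2 * Real.log V), |AA S.g (S.cN T) s u - L| ≤
      ε + |s * Real.log V / (2 * Real.pi) - L| * V := by
  set m : ℝ := s * Real.log V / (2 * Real.pi) with hm
  have hi1 := AL_ii S.g (S.cN T) s m (V + 2 * Real.log V) (2 * V - 2 * Real.log V)
  have h1 : ∫ u in (V + 2 * Real.log V)..(2 * V - 2 * Real.log V), |AA S.g (S.cN T) s u - L| ≤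
      ∫ u in (V + 2 * Real.log V)..(2 * V - 2 * Real.log V),
        (|AA S.g (S.cN T) s u - m| + |m - L|) := by
    refine intervalIntegral.integral_mono_on hV4 (AL_ii _ _ _ _ _ _)
      (hi1.add intervalIntegrable_const) fun u _ => ?_
    have e : AA S.g (S.cN T) s u - L = (AA S.g (S.cN T) s u - m) + (m - L) := by ring
    rw [e]
    exact abs_add_le _ _
  rw [intervalIntegral.integral_add hi1 intervalIntegrable_const,
    intervalIntegral.integral_const, smul_eq_mul] at h1
  have h2 : ∫ u in (V + 2 * Real.log V)..(2 * V - 2 * Real.log V), |AA S.g (S.cN T) s u - m| =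
      ∫ t in (V + 2 * Real.log V)..(2 * V - 2 * Real.log V),
        |({n : ℕ | t < S.g n ∧ S.g n ≤ t + s}.ncard : ℝ) - m| := by
    have c1 : (Set.range S.g).Countable := Set.countable_range _
    have c2 : (Set.range fun n => S.g n - s).Countable := Set.countable_range _
    have a1 : ∀ᵐ u : ℝ, u ∉ Set.range S.g := c1.ae_notMem _
    have a2 : ∀ᵐ u : ℝ, u ∉ Set.range fun n => S.g n - s := c2.ae_notMem _
    refine intervalIntegral.integral_congr_ae ?_
    filter_upwards [a1, a2] with u h3 h4 h5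
    rw [Set.uIoc_of_le hV4] at h5
    rw [AA_eq S (fun n hn => h3 ⟨n, hn⟩) (fun n hn => h4 ⟨n, by simp only; linarith⟩)
      (by linarith [h5.2])]
  rw [h2] at h1
  have h3 : (2 * V - 2 * Real.log V - (V + 2 * Real.log V)) * |m - L| ≤ |m - L| * V := by
    rw [mul_comm]
    refine mul_le_mul_of_nonneg_left ?_ (abs_nonneg _)
    linarith
  linarith

/-! ### Asymptotics -/

theorem log_lim {q : ℝ → ℝ} {c : ℝ} (hc : 0 < c)
    (hq : Tendsto (fun T => q T / T) atTop (𝓝 c)) :
    Tendsto (fun T => Real.log (q T) / Real.log T) atTop (𝓝 1) := by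
  have h1 : Tendsto (fun T => Real.log (q T / T)) atTop (𝓝 (Real.log c)) :=
    (Real.continuousAt_log hc.ne').tendsto.comp hq
  have h2 : Tendsto (fun T => Real.log (q T / T) / Real.log T) atTop (𝓝 0) :=
    h1.div_atTop Real.tendsto_log_atTop
  have h3 := h2.const_add 1
  rw [add_zero] at h3
  refine h3.congr' ?_
  filter_upwards [eventually_gt_atTop 1, hq.eventually (lt_mem_nhds hc)] with T hT hqT
  have hT0 : 0 < T := by linarith
  have hlT : Real.log T ≠ 0 := (Real.log_pos hT).ne'
  have hq0 : 0 < q T := by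
    have := mul_pos hqT hT0
    rwa [div_mul_cancel₀ _ hT0.ne'] at this
  rw [Real.log_div hq0.ne' hT0.ne', sub_div, div_self hlT]
  ring

theorem cN_lim (S : Sq) {q : ℝ → ℝ} {c : ℝ} (hc : 0 < c)
    (hq : Tendsto (fun T => q T / T) atTop (𝓝 c)) :
    Tendsto (fun T => (S.cN (q T) : ℝ) / (T * (Real.log T / (2 * Real.pi)))) atTop (𝓝 c) := by
  have hq1 : Tendsto q atTop atTop := by
    have h1 : Tendsto (fun T => q T / T * T) atTop atTop := hq.pos_mul_atTop hc tendsto_id
    refine h1.congr' ?_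
    filter_upwards [eventually_gt_atTop 0] with T hT
    rw [div_mul_cancel₀ _ hT.ne']
  have h1 := S.asy.comp hq1
  have h2 := (h1.mul hq).mul (log_lim hc hq)
  rw [one_mul, mul_one] at h2
  refine h2.congr' ?_
  filter_upwards [eventually_gt_atTop 1, hq1.eventually (eventually_gt_atTop 1)] with T hT hqT
  have hT0 : T ≠ 0 := by linarith
  have hlT : Real.log T ≠ 0 := (Real.log_pos hT).ne'
  have hq0 : q T ≠ 0 := by linarith
  have hlq : Real.log (q T) ≠ 0 := (Real.log_pos hqT).ne'
  simp only [Function.comp]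
  field_simp

/-! ### One dyadic interval -/

/-- the window in the original scale -/
noncomputable def ww (L T : ℝ) : ℝ := L / (Real.log T / (2 * Real.pi))

theorem ww_lim (L : ℝ) : Tendsto (ww L) atTop (𝓝 0) := by
  have h1 : Tendsto (fun T : ℝ => Real.log T / (2 * Real.pi)) atTop atTop :=
    Real.tendsto_log_atTop.atTop_div_const (by positivity)
  exact tendsto_const_nhds.div_atTop h1

theorem logdiv_lim {q : ℝ → ℝ} {c : ℝ} (hc : 0 < c)
    (hq : Tendsto (fun T => q T / T) atTop (𝓝 c)) :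
    Tendsto (fun T => Real.log (q T) / T) atTop (𝓝 0) := by
  have h1 : Tendsto (fun T : ℝ => Real.log T / T) atTop (𝓝 0) :=
    Real.isLittleO_log_id_atTop.tendsto_div_nhds_zero
  have h2 := (log_lim hc hq).mul h1
  rw [mul_zero] at h2
  refine h2.congr' ?_
  filter_upwards [eventually_gt_atTop 1] with T hT
  have hlT : Real.log T ≠ 0 := (Real.log_pos hT).ne'
  field_simp

theorem dyadic (S : Sq) (hD : Dya S) (j : ℕ) : ∀ δ : ℝ, 0 < δ → ∃ L0 : ℝ, 0 < L0 ∧
    ∀ L : ℝ, L0 ≤ L → ∀ᶠ T in atTop,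
    ∫ u in (T / 2 ^ (j + 1))..(T / 2 ^ j), |AA S.g (S.cN T) (ww L T) u - L| ≤ δ * L * T := by
  intro δ hδ
  obtain ⟨K, T0, hK, hT0, hDy⟩ := hD (δ / (4 * Real.pi)) (by positivity)
  refine ⟨K, by linarith, fun L hL => ?_⟩
  have hLpos : 0 < L := by linarith
  have h2j : (0 : ℝ) < 2 ^ (j + 1) := by positivity
  -- the lengths
  have hV : Tendsto (fun T : ℝ => (T / 2 ^ (j + 1)) / T) atTop (𝓝 (1 / 2 ^ (j + 1))) := by
    refine tendsto_const_nhds.congr' ?_
    filter_upwards [eventually_gt_atTop 0] with T hT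
    field_simp
  have hcpos : (0 : ℝ) < 1 / 2 ^ (j + 1) := by positivity
  have hlV : Tendsto (fun T : ℝ => Real.log (T / 2 ^ (j + 1)) / T) atTop (𝓝 0) :=
    logdiv_lim hcpos hV
  have hw : Tendsto (fun T : ℝ => ww L T / T) atTop (𝓝 0) := (ww_lim L).div_atTop tendsto_id
  have h1T : Tendsto (fun T : ℝ => 1 / T) atTop (𝓝 0) :=
    tendsto_const_nhds.div_atTop tendsto_id
  -- the counting functions at the ends
  have q1 : Tendsto (fun T : ℝ => (T / 2 ^ (j + 1) + 2 * Real.log (T / 2 ^ (j + 1)) + ww L T) / T)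
      atTop (𝓝 (1 / 2 ^ (j + 1))) := by
    have := (hV.add (hlV.const_mul 2)).add hw
    rw [mul_zero, add_zero, add_zero] at this
    refine this.congr fun T => ?_
    ring
  have q2 : Tendsto (fun T : ℝ => (T / 2 ^ (j + 1) - 1) / T) atTop (𝓝 (1 / 2 ^ (j + 1))) := by
    have := hV.sub h1T
    rw [sub_zero] at this
    refine this.congr fun T => ?_
    ring
  have q3 : Tendsto (fun T : ℝ => (2 * (T / 2 ^ (j + 1)) + ww L T) / T) atTop
      (𝓝 (2 * (1 / 2 ^ (j + 1)))) := by
    have := (hV.const_mul 2).add hw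
    rw [add_zero] at this
    refine this.congr fun T => ?_
    ring
  have q4 : Tendsto (fun T : ℝ => (2 * (T / 2 ^ (j + 1)) - 2 * Real.log (T / 2 ^ (j + 1)) - 1) / T)
      atTop (𝓝 (2 * (1 / 2 ^ (j + 1)))) := by
    have := ((hV.const_mul 2).sub (hlV.const_mul 2)).sub h1T
    rw [mul_zero, sub_zero, sub_zero] at this
    refine this.congr fun T => ?_
    ring
  have e1 := (cN_lim S hcpos q1).sub (cN_lim S hcpos q2)
  have e2 := (cN_lim S (by positivity) q3).sub (cN_lim S (by positivity) q4)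
  rw [sub_self] at e1 e2
  have hlog1 := log_lim hcpos hV
  have e3 : Tendsto (fun T : ℝ => |Real.log (T / 2 ^ (j + 1)) / Real.log T - 1|) atTop (𝓝 0) := by
    have := (hlog1.sub_const 1).abs
    rwa [sub_self, abs_zero] at this
  -- the total error
  have etot : Tendsto (fun T : ℝ =>
      (((S.cN (T / 2 ^ (j + 1) + 2 * Real.log (T / 2 ^ (j + 1)) + ww L T) : ℝ) /
        (T * (Real.log T / (2 * Real.pi))) - (S.cN (T / 2 ^ (j + 1) - 1) : ℝ) /
        (T * (Real.log T / (2 * Real.pi)))) +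
      ((S.cN (2 * (T / 2 ^ (j + 1)) + ww L T) : ℝ) /
        (T * (Real.log T / (2 * Real.pi))) -
        (S.cN (2 * (T / 2 ^ (j + 1)) - 2 * Real.log (T / 2 ^ (j + 1)) - 1) : ℝ) /
        (T * (Real.log T / (2 * Real.pi))))) +
      |Real.log (T / 2 ^ (j + 1)) / Real.log T - 1| + 4 * (Real.log (T / 2 ^ (j + 1)) / T))
      atTop (𝓝 0) := by
    have := ((e1.add e2).add e3).add (hlV.const_mul 4)
    simpa using this
  have hVinf : Tendsto (fun T : ℝ => T / 2 ^ (j + 1)) atTop atTop :=
    tendsto_id.atTop_div_const h2j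
  have hlogV : Tendsto (fun T : ℝ => Real.log (T / 2 ^ (j + 1))) atTop atTop :=
    Real.tendsto_log_atTop.comp hVinf
  have hlogVV : ∀ᶠ T : ℝ in atTop, 4 * Real.log (T / 2 ^ (j + 1)) ≤ T / 2 ^ (j + 1) := by
    have h1 : Tendsto (fun T : ℝ => Real.log T / T) atTop (𝓝 0) :=
      Real.isLittleO_log_id_atTop.tendsto_div_nhds_zero
    filter_upwards [hVinf.eventually (h1.eventually (gt_mem_nhds (show (0 : ℝ) < 1 / 4 by
      norm_num))), hVinf.eventually (eventually_gt_atTop 0)] with T h2 h3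
    rw [div_lt_iff₀ h3] at h2
    linarith
  filter_upwards [etot.eventually (gt_mem_nhds (show (0 : ℝ) < δ / 2 by positivity)),
    hVinf.eventually (eventually_ge_atTop T0), hlogV.eventually (eventually_ge_atTop 1), hlogVV,
    (ww_lim L).eventually (gt_mem_nhds (show (0 : ℝ) < 1 / K by positivity)),
    hlog1.eventually (lt_mem_nhds (show (1 / 2 : ℝ) < 1 by norm_num)),
    eventually_gt_atTop (2 : ℝ)] with T herr hVT0 hlV1 hlV4 hwK hhalf hT2
  have hTpos : 0 < T := by linarith
  have hlT : 0 < Real.log T := Real.log_pos (by linarith)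
  have hl : 0 < Real.log T / (2 * Real.pi) := by positivity
  set V : ℝ := T / 2 ^ (j + 1) with hVdef
  set l : ℝ := Real.log T / (2 * Real.pi) with hldef
  have hs : 0 ≤ ww L T := div_nonneg hLpos.le hl.le
  set s : ℝ := ww L T with hsdef
  have hsl : s * l = L := by
    rw [hsdef, ww, ← hldef, div_mul_cancel₀ _ hl.ne']
  have h2V : T / 2 ^ j = 2 * V := by
    rw [hVdef, pow_succ]
    field_simp
  have hVpos : 0 < V := by linarith
  have h2VT : 2 * V ≤ T := by
    rw [← h2V]
    exact div_le_self hTpos.le (one_le_pow₀ (by norm_num))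
  have hlVT : Real.log V ≤ Real.log T := Real.log_le_log hVpos (by linarith)
  have hs1 : s ≤ 1 := by
    have : 1 / K ≤ 1 := by
      rw [div_le_one (by linarith)]
      exact hK
    linarith
  -- the good part
  have hKs : K ≤ s * Real.log V := by
    have h5 : s * Real.log V = 2 * Real.pi * L * (Real.log V / Real.log T) := by
      rw [← hsl, hldef]
      field_simp
    rw [h5]
    have hpi := Real.pi_gt_three
    have h6 : L ≤ 2 * Real.pi * L * (1 / 2) := by nlinarith
    calc K ≤ L := hL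
      _ ≤ 2 * Real.pi * L * (1 / 2) := h6
      _ ≤ 2 * Real.pi * L * (Real.log V / Real.log T) := by
          have : 0 ≤ 2 * Real.pi * L := by positivity
          gcongr
  have hg := good S (T := T) (L := L) hlV1 (by linarith) (by linarith) h2VT
    (hDy V hVT0 s hKs hwK.le)
  have hp1 := piece S (S.cN T) hs hLpos.le (show V ≤ V + 2 * Real.log V by linarith)
  have hp2 := piece S (S.cN T) hs hLpos.le (show 2 * V - 2 * Real.log V ≤ 2 * V by linarith)
  have hsplit : ∫ u in V..(2 * V), |AA S.g (S.cN T) s u - L| =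
      (∫ u in V..(V + 2 * Real.log V), |AA S.g (S.cN T) s u - L|) +
      (∫ u in (V + 2 * Real.log V)..(2 * V - 2 * Real.log V), |AA S.g (S.cN T) s u - L|) +
      ∫ u in (2 * V - 2 * Real.log V)..(2 * V), |AA S.g (S.cN T) s u - L| := by
    rw [intervalIntegral.integral_add_adjacent_intervals (AL_ii _ _ _ _ _ _) (AL_ii _ _ _ _ _ _),
      intervalIntegral.integral_add_adjacent_intervals (AL_ii _ _ _ _ _ _) (AL_ii _ _ _ _ _ _)]
  rw [h2V, hsplit]
  -- rewrite the error
  have r1 : δ / (4 * Real.pi) * s * Real.log V * V ≤ δ / 2 * L * T := by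
    have h5 : δ / (4 * Real.pi) * s * Real.log V * V ≤
        δ / (4 * Real.pi) * s * Real.log T * T := by
      have : V ≤ T := by linarith
      gcongr
    have h6 : δ / (4 * Real.pi) * s * Real.log T * T = δ / 2 * L * T := by
      rw [← hsl, hldef]
      field_simp
      ring
    linarith
  have r2 : |s * Real.log V / (2 * Real.pi) - L| * V ≤
      |Real.log V / Real.log T - 1| * (L * T) := by
    have h5 : s * Real.log V / (2 * Real.pi) - L = (Real.log V / Real.log T - 1) * L := by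
      rw [← hsl, hldef]
      field_simp
    rw [h5, abs_mul, abs_of_pos hLpos, mul_assoc]
    gcongr
    linarith
  have r3 : ∀ a b : ℝ, s * (a - b) = (a / (T * l) - b / (T * l)) * (L * T) := by
    intro a b
    rw [← hsl]
    field_simp
  rw [r3] at hp1 hp2
  have r4 : L * (V + 2 * Real.log V - V) + L * (2 * V - (2 * V - 2 * Real.log V)) =
      4 * (Real.log V / T) * (L * T) := by
    field_simp
    ring
  have hLT : 0 < L * T := by positivity
  have hfin := mul_lt_mul_of_pos_right herr hLT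
  nlinarith [hp1, hp2, hg, r1, r2, r4, hfin]

/-- finitely many dyadic intervals -/
theorem dyadics (S : Sq) (hD : Dya S) (J : ℕ) : ∀ δ : ℝ, 0 < δ → ∃ L0 : ℝ, 0 < L0 ∧
    ∀ L : ℝ, L0 ≤ L → ∀ᶠ T in atTop,
    ∫ u in (T / 2 ^ J)..T, |AA S.g (S.cN T) (ww L T) u - L| ≤ δ * L * T := by
  induction J with
  | zero =>
    intro δ hδ
    refine ⟨1, one_pos, fun L hL => ?_⟩
    filter_upwards [eventually_gt_atTop (0 : ℝ)] with T hT
    rw [pow_zero, div_one, intervalIntegral.integral_same]
    positivity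
  | succ J ih =>
    intro δ hδ
    obtain ⟨L1, hL1, h1⟩ := ih (δ / 2) (by positivity)
    obtain ⟨L2, hL2, h2⟩ := dyadic S hD J (δ / 2) (by positivity)
    refine ⟨max L1 L2, lt_max_of_lt_left hL1, fun L hL => ?_⟩
    filter_upwards [h1 L ((le_max_left _ _).trans hL), h2 L ((le_max_right _ _).trans hL)]
      with T h3 h4
    rw [← intervalIntegral.integral_add_adjacent_intervals (b := T / 2 ^ J) (AL_ii _ _ _ _ _ _)
      (AL_ii _ _ _ _ _ _)]
    linarith

/-- the counting function of the configuration in the original scale -/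
theorem tc_eq (S : Sq) {T L : ℝ} (hT : 2 ≤ T) (u : ℝ) :
    (tc (S.x T) L 0 (u * (Real.log T / (2 * Real.pi))) : ℝ) =
      AA S.g (S.cN T) (ww L T) u := by
  have hlT : 0 < Real.log T := Real.log_pos (by linarith)
  have hl : 0 < Real.log T / (2 * Real.pi) := by positivity
  have hN : S.N T = S.cN T := by
    unfold Sq.N
    rw [if_neg (not_lt.2 hT)]
  unfold tc AA
  rw [Set.ncard_eq_toFinset_card', Set.toFinset_ofPred, Finset.card_filter, ← hN,
    Finset.sum_range]
  push_cast
  refine Finset.sum_congr rfl fun i _ => ?_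
  have hiff : (0 * L ≤ S.x T i - u * (Real.log T / (2 * Real.pi)) ∧
      S.x T i - u * (Real.log T / (2 * Real.pi)) < (0 + 1) * L) ↔
      (u ≤ S.g i ∧ S.g i < u + ww L T) := by
    unfold Sq.x ww
    set l : ℝ := Real.log T / (2 * Real.pi) with hldef
    have e : S.g i.val * l - u * l = (S.g i.val - u) * l := by ring
    rw [e, zero_mul, zero_add, one_mul]
    constructor
    · rintro ⟨h1, h2⟩
      refine ⟨?_, ?_⟩
      · have := nonneg_of_mul_nonneg_left h1 hl
        linarith
      · rw [← lt_div_iff₀ hl] at h2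
        linarith
    · rintro ⟨h1, h2⟩
      refine ⟨mul_nonneg (by linarith) hl.le, ?_⟩
      rw [← lt_div_iff₀ hl]
      linarith
  exact if_congr hiff rfl rfl

theorem t_CONS : S_CONS := by
  intro h S hD η hη
  obtain ⟨J, hJ⟩ := exists_pow_lt_of_lt_one (show (0 : ℝ) < η / 6 by positivity)
    (show (1 / 2 : ℝ) < 1 by norm_num)
  obtain ⟨L0, hL0, hL⟩ := dyadics S hD J (η / 2) (by positivity)
  refine ⟨L0, hL0, fun L hLL => ?_⟩
  have hLpos : 0 < L := by linarith
  have hcpos : (0 : ℝ) < 1 / 2 ^ J := by positivity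
  have hw : Tendsto (fun T : ℝ => ww L T / T) atTop (𝓝 0) := (ww_lim L).div_atTop tendsto_id
  have hq : Tendsto (fun T : ℝ => (T / 2 ^ J + ww L T) / T) atTop (𝓝 (1 / 2 ^ J)) := by
    have hV : Tendsto (fun T : ℝ => (T / 2 ^ J) / T) atTop (𝓝 (1 / 2 ^ J)) := by
      refine tendsto_const_nhds.congr' ?_
      filter_upwards [eventually_gt_atTop 0] with T hT
      field_simp
    have := hV.add hw
    rw [add_zero] at this
    refine this.congr fun T => ?_
    ring
  have hc := cN_lim S hcpos hq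
  have htot := hc.add hq
  have hlim : 1 / 2 ^ J + 1 / 2 ^ J < η / 2 := by
    have : (1 / 2 : ℝ) ^ J = 1 / 2 ^ J := by rw [div_pow, one_pow]
    rw [this] at hJ
    linarith
  filter_upwards [htot.eventually (gt_mem_nhds hlim), hL L hLL, eventually_ge_atTop (2 : ℝ)]
    with T h1 h2 hT
  have hTpos : 0 < T := by linarith
  have hlT : 0 < Real.log T := Real.log_pos (by linarith)
  have hl : 0 < Real.log T / (2 * Real.pi) := by positivity
  show (∫ t in Set.Icc (-L) (T / (2 * Real.pi) * Real.log T), |(tc (S.x T) L 0 t : ℝ) - L|) /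
    (T / (2 * Real.pi) * Real.log T) ≤ η * L
  have hs : 0 ≤ ww L T := div_nonneg hLpos.le hl.le
  have hsl : ww L T * (Real.log T / (2 * Real.pi)) = L := by
    rw [ww, div_mul_cancel₀ _ hl.ne']
  have hR : T / (2 * Real.pi) * Real.log T = T * (Real.log T / (2 * Real.pi)) := by ring
  -- change of variables
  have e1 : ∫ t in Set.Icc (-L) (T / (2 * Real.pi) * Real.log T), |(tc (S.x T) L 0 t : ℝ) - L| =
      (Real.log T / (2 * Real.pi)) * ∫ u in (-(ww L T))..T, |AA S.g (S.cN T) (ww L T) u - L| := by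
    have e2 : -L ≤ T / (2 * Real.pi) * Real.log T := by
      rw [hR]
      have : 0 < T * (Real.log T / (2 * Real.pi)) := by positivity
      linarith
    rw [integral_Icc_eq_integral_Ioc, ← intervalIntegral.integral_of_le e2]
    have e3 := intervalIntegral.integral_comp_mul_right (a := -(ww L T)) (b := T)
      (fun t => |(tc (S.x T) L 0 t : ℝ) - L|) hl.ne'
    have e4 : (fun u => |(tc (S.x T) L 0 (u * (Real.log T / (2 * Real.pi))) : ℝ) - L|) =
        fun u => |AA S.g (S.cN T) (ww L T) u - L| := by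
      funext u
      rw [tc_eq S hT]
    rw [e4, neg_mul, hsl, smul_eq_mul] at e3
    rw [e3, hR, ← mul_assoc, mul_inv_cancel₀ hl.ne', one_mul]
  have e5 : (Real.log T / (2 * Real.pi) * ∫ u in (-(ww L T))..T,
      |AA S.g (S.cN T) (ww L T) u - L|) / (T * (Real.log T / (2 * Real.pi))) =
      (∫ u in (-(ww L T))..T, |AA S.g (S.cN T) (ww L T) u - L|) / T := by
    field_simp
  rw [e1, hR, e5, div_le_iff₀ hTpos]
  have hp := piece S (S.cN T) hs hLpos.le (show -(ww L T) ≤ T / 2 ^ J by
    have : 0 ≤ T / 2 ^ J := by positivity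
    linarith)
  have hcn : (0 : ℝ) ≤ S.cN (-(ww L T) - 1) := Nat.cast_nonneg _
  have hp2 : ∫ u in (-(ww L T))..(T / 2 ^ J), |AA S.g (S.cN T) (ww L T) u - L| ≤
      ((S.cN (T / 2 ^ J + ww L T) : ℝ) / (T * (Real.log T / (2 * Real.pi))) +
        (T / 2 ^ J + ww L T) / T) * (L * T) := by
    have e6 : ((S.cN (T / 2 ^ J + ww L T) : ℝ) / (T * (Real.log T / (2 * Real.pi))) +
        (T / 2 ^ J + ww L T) / T) * (L * T) =
        ww L T * S.cN (T / 2 ^ J + ww L T) + L * (T / 2 ^ J - -(ww L T)) := by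
      have e7 : L / (Real.log T / (2 * Real.pi)) = ww L T := rfl
      rw [← e7]
      field_simp
      ring
    rw [e6]
    refine hp.trans ?_
    have : ww L T * ((S.cN (T / 2 ^ J + ww L T) : ℝ) - S.cN (-(ww L T) - 1)) ≤
        ww L T * S.cN (T / 2 ^ J + ww L T) := by
      refine mul_le_mul_of_nonneg_left ?_ hs
      linarith
    linarith
  have hLT : 0 < L * T := by positivity
  have hfin := mul_lt_mul_of_pos_right h1 hLT
  rw [← intervalIntegral.integral_add_adjacent_intervals (b := T / 2 ^ J) (AL_ii _ _ _ _ _ _)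
    (AL_ii _ _ _ _ _ _)]
  have e8 : η * L * T = η / 2 * (L * T) + η / 2 * L * T := by ring
  rw [e8]
  linarith

end Pool.Agent.H162.GU.CONS
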